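import Pool.Agent.H922R3.ManL

set_option autoImplicit false

open scoped Manifold ContDiff Topology Bundle
open Set Filter Bundle

namespace Pool.Agent.Results.MP_610fe3_an.LivsicCriterion

open Pool.Agent.H721R2 Pool.Agent.H789R2.AN Pool.Agent.H922R3

/-- **Livsic's theorem characterises transitivity.**
Let `f` be a `C¹` Anosov diffeomorphism of a closed connected smooth manifold `M`.  Suppose that
Livsic's theorem holds for `f` up to a finite dimensional defect: there is a finite dimensional
space `V` of real functions on `M` such that every smooth function `ψ`, whose sum over each periodic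
orbit of `f` vanishes, is of the form `v + u ∘ f - u` with `v` in `V` and `u` continuous.  Then `f`
is topologically transitive. -/
theorem result (E : Type*) [NormedAddCommGroup E] [NormedSpace ℝ E] [FiniteDimensional ℝ E]
    (M : Type*) [TopologicalSpace M] [T2Space M] [CompactSpace M] [ConnectedSpace M]
    [ChartedSpace E M] [IsManifold 𝓘(ℝ, E) ∞ M]
    (f : Diffeomorph 𝓘(ℝ, E) 𝓘(ℝ, E) M M 1)
    (Es Eu : ∀ x : M, Submodule ℝ (TangentSpace 𝓘(ℝ, E) x)) (hf : IsAnosov f Es Eu)
    (V : Submodule ℝ (M → ℝ)) [FiniteDimensional ℝ V]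
    (hV : ∀ ψ : M → ℝ, ContMDiff 𝓘(ℝ, E) 𝓘(ℝ, ℝ) ∞ ψ →
      (∀ (n : ℕ) (p : M), f^[n] p = p → ∑ i ∈ Finset.range n, ψ (f^[i] p) = 0) →
      ∃ v ∈ V, ∃ u : M → ℝ, Continuous u ∧ ∀ x, ψ x = v x + (u (f x) - u x)) :
    TopTransitive f :=
  man_livsic f Es Eu hf V hV

end Pool.Agent.Results.MP_610fe3_an.LivsicCriterion
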