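import Pool.Agent.H922R3.ManE

set_option autoImplicit false

open scoped Manifold ContDiff Topology Bundle
open Set Filter Bundle

namespace Pool.Agent.Results.MP_610fe3_an.TransitiveExtension

open Pool.Agent.H721R2 Pool.Agent.H789R2.AN Pool.Agent.H922R3

/-- **Transitivity of extensions of transitive Anosov diffeomorphisms.**
Let `M` and `N` be closed connected smooth manifolds, `f` and `g` `C¹` Anosov diffeomorphisms of `M`
and `N`, and `p : M → N` a continuous open map (for instance the projection of a fibre bundle) with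
`p ∘ f = g ∘ p`.  Suppose that `g` is topologically transitive and that there is one point `y` of
`N` such that any two points of the fibre `p⁻¹(y)` are joined by orbits of nearby points: for all
`a, b` in the fibre and all neighbourhoods `U` of `a` and `V` of `b` some forward iterate of `U`
meets `V` (for instance: `gᵏ y = y` for some `k ≥ 1`, and the restriction of `fᵏ` to the fibre is
transitive).  Then `f` is topologically transitive. -/
theorem result (E : Type*) [NormedAddCommGroup E] [NormedSpace ℝ E] [FiniteDimensional ℝ E]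
    (M : Type*) [TopologicalSpace M] [T2Space M] [CompactSpace M] [ConnectedSpace M]
    [ChartedSpace E M] [IsManifold 𝓘(ℝ, E) ∞ M]
    (E' : Type*) [NormedAddCommGroup E'] [NormedSpace ℝ E'] [FiniteDimensional ℝ E']
    (N : Type*) [TopologicalSpace N] [T2Space N] [CompactSpace N] [ConnectedSpace N]
    [ChartedSpace E' N] [IsManifold 𝓘(ℝ, E') ∞ N]
    (f : Diffeomorph 𝓘(ℝ, E) 𝓘(ℝ, E) M M 1)
    (Es Eu : ∀ x : M, Submodule ℝ (TangentSpace 𝓘(ℝ, E) x)) (hf : IsAnosov f Es Eu)
    (g : Diffeomorph 𝓘(ℝ, E') 𝓘(ℝ, E') N N 1)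
    (Es' Eu' : ∀ x : N, Submodule ℝ (TangentSpace 𝓘(ℝ, E') x)) (hg : IsAnosov g Es' Eu')
    (p : M → N) (hc : Continuous p) (ho : IsOpenMap p) (hsemi : ∀ x, p (f x) = g (p x))
    (htr : TopTransitive g) (y : N)
    (hfib : ∀ a b : M, p a = y → p b = y → ∀ U V : Set M, IsOpen U → a ∈ U → IsOpen V → b ∈ V →
      ∃ j : ℕ, (f^[j] '' U ∩ V).Nonempty) :
    TopTransitive f :=
  man_ext f Es Eu hf g Es' Eu' hg p hc ho hsemi htr y hfib

end Pool.Agent.Results.MP_610fe3_an.TransitiveExtension
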