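import Pool.Agent.H922R3.ManT

set_option autoImplicit false

open scoped Manifold ContDiff Topology Bundle
open Set Filter Bundle MeasureTheory

namespace Pool.Agent.Results.MP_610fe3_an.TransverseMeasures

open Pool.Agent.H721R2 Pool.Agent.H789R2.AN Pool.Agent.H922R3

/-- **Transitivity of Anosov diffeomorphisms with holonomy invariant measures.**
Let `f` be a `C¹` Anosov diffeomorphism of a closed connected smooth manifold `M`.  Suppose that the
stable leaves carry measures, finite on uniformly small plaques and positive on all plaques, that
are invariant up to a uniform factor under the holonomy along the unstable leaves, and that the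
unstable leaves carry such measures for the holonomy along the stable leaves.  Then `f` is
topologically transitive.  No relation between the measures and the dynamics is assumed. -/
theorem result (E : Type*) [NormedAddCommGroup E] [NormedSpace ℝ E] [FiniteDimensional ℝ E]
    (M : Type*) [TopologicalSpace M] [T2Space M] [CompactSpace M] [ConnectedSpace M]
    [ChartedSpace E M] [IsManifold 𝓘(ℝ, E) ∞ M] [MeasurableSpace M] [BorelSpace M]
    (f : Diffeomorph 𝓘(ℝ, E) 𝓘(ℝ, E) M M 1)
    (Es Eu : ∀ x : M, Submodule ℝ (TangentSpace 𝓘(ℝ, E) x)) (hf : IsAnosov f Es Eu)
    (μs μu : M → Measure M)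
    (hs : TransverseFamily f.toHomeomorph μs)
    (hu : TransverseFamily f.toHomeomorph.symm μu) :
    TopTransitive f :=
  man_measures f Es Eu hf μs μu hs hu

end Pool.Agent.Results.MP_610fe3_an.TransverseMeasures
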