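import Pool.Agent.H922R3.Growth

set_option autoImplicit false

open scoped Manifold ContDiff Topology Bundle
open Set Filter Bundle MeasureTheory

namespace Pool.Agent.Results.MP_610fe3_an.UniformGrowth

open Pool.Agent.H721R2 Pool.Agent.H789R2.AN Pool.Agent.H922R3

/-- **Transitivity from uniform growth of the unstable leaves.**
Let `f` be a `C¹` Anosov diffeomorphism of a closed connected smooth manifold `M`, and suppose that
its unstable plaques grow uniformly: at small scales the largest number of points in an unstable
plaque that are separated up to time `n` is, up to a constant factor and a constant time shift, the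
same for all plaques.  Suppose moreover that either
(a) the stable plaques grow uniformly too (under `f⁻¹`), or
(b) the unstable foliation has a fully supported transverse measure (measures on the stable leaves,
invariant up to a uniform factor under the holonomy along unstable leaves).
Then `f` is topologically transitive.  In case (b) both hypotheses concern the unstable foliation
alone. -/
theorem result (E : Type*) [NormedAddCommGroup E] [NormedSpace ℝ E] [FiniteDimensional ℝ E]
    (M : Type*) [TopologicalSpace M] [T2Space M] [CompactSpace M] [ConnectedSpace M]
    [ChartedSpace E M] [IsManifold 𝓘(ℝ, E) ∞ M] [MeasurableSpace M] [BorelSpace M]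
    (f : Diffeomorph 𝓘(ℝ, E) 𝓘(ℝ, E) M M 1)
    (Es Eu : ∀ x : M, Submodule ℝ (TangentSpace 𝓘(ℝ, E) x)) (hf : IsAnosov f Es Eu)
    (hU : UniformGrowth f.toHomeomorph)
    (hor : UniformGrowth f.toHomeomorph.symm ∨
      ∃ ν : M → Measure M, TransverseFamily f.toHomeomorph ν) :
    TopTransitive f :=
  man_growth f Es Eu hf hU hor

end Pool.Agent.Results.MP_610fe3_an.UniformGrowth
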